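import Pool.Agent.helper70.LZ.SpecZ

/-!
# Project LE, block BOUND-Z (MP_baa4d7_al), row ZL2
-/

set_option autoImplicit false

namespace Pool.Agent.LE

open Pool.Agent.helper58.DC Pool.Agent.DI Pool.Agent.GR Pool.Agent.OB Pool.Agent.DR Pool.Agent.FI Pool.Agent.FI3 Pool.Agent.FI4

/-- the `q`-part and the `q`-regular part -/
theorem ZL2_dec {G : Type} [Group G] [Finite G] {q : ℕ} (hq : q.Prime) (y : G) :
    ∃ s x : G, s ∈ Subgroup.zpowers y ∧ x ∈ Subgroup.zpowers y ∧ PEl q s ∧ ¬ q ∣ orderOf x ∧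
      orderOf x ∣ orderOf y ∧ s * x = y ∧ s * x = x * s := by
  set n := orderOf y with hn
  have hn0 : n ≠ 0 := (orderOf_pos y).ne'
  set a := q ^ n.factorization q with ha
  set b := n / q ^ n.factorization q with hb
  have hab : a * b = n := Nat.ordProj_mul_ordCompl_eq_self n q
  have hqb : q.Coprime b := Nat.coprime_ordCompl hq hn0
  have hco : IsCoprime (a : ℤ) (b : ℤ) := Nat.isCoprime_iff_coprime.2 (hqb.pow_left _)
  obtain ⟨u, v, huv⟩ := hco
  have hyn : y ^ (n : ℤ) = 1 := by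
    rw [zpow_natCast, hn]
    exact pow_orderOf_eq_one y
  refine ⟨y ^ (v * b), y ^ (u * a), ⟨_, rfl⟩, ⟨_, rfl⟩, ⟨n.factorization q, ?_⟩, ?_, ?_, ?_, ?_⟩
  · rw [← zpow_natCast, ← zpow_mul]
    have : v * (b : ℤ) * ((q ^ n.factorization q : ℕ) : ℤ) = (n : ℤ) * v := by
      rw [← ha, ← hab]
      push_cast
      ring
    rw [this, zpow_mul, hyn, one_zpow]
  · intro hd
    have h1 : orderOf (y ^ (u * (a : ℤ))) ∣ b := by
      rw [orderOf_dvd_iff_pow_eq_one, ← zpow_natCast, ← zpow_mul]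
      have : u * (a : ℤ) * (b : ℤ) = (n : ℤ) * u := by
        rw [← hab]
        push_cast
        ring
      rw [this, zpow_mul, hyn, one_zpow]
    exact (hq.coprime_iff_not_dvd.mp hqb) (hd.trans h1)
  · rw [orderOf_dvd_iff_pow_eq_one, ← zpow_natCast, ← zpow_mul, mul_comm, zpow_mul, hyn, one_zpow]
  · rw [← zpow_add]
    have : v * (b : ℤ) + u * (a : ℤ) = 1 := by rw [← huv]; ring
    rw [this, zpow_one]
  · rw [← zpow_add, ← zpow_add, add_comm]

/-- roots of unity of `q`-power order are congruent to `1` -/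
theorem ZL2_root {q : ℕ} {M : Ideal (integralClosure ℤ ℂ)} (hM : Setup q M) {ω : ℂ} (hω : IsIntegral ℤ ω)
    (k : ℕ) (h : ω ^ q ^ k = 1) : InM M (ω - 1) := by
  have := hM.max
  have hprime := hM.prime
  have : Fact q.Prime := ⟨hM.pr⟩
  set a : integralClosure ℤ ℂ := ⟨ω, hω⟩ with ha
  have hnt : Nontrivial (integralClosure ℤ ℂ ⧸ M) := Ideal.Quotient.nontrivial_iff.mpr hprime.ne_top
  have hq0 : ((q : ℕ) : integralClosure ℤ ℂ ⧸ M) = 0 := by
    have h1 : (Ideal.Quotient.mk M) ((q : ℕ) : integralClosure ℤ ℂ) = 0 := Ideal.Quotient.eq_zero_iff_mem.mpr hM.mem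
    rw [map_natCast] at h1
    exact h1
  have : CharP (integralClosure ℤ ℂ ⧸ M) q := (CharP.charP_iff_prime_eq_zero hM.pr).mpr hq0
  have hak : a ^ q ^ k = 1 := Subtype.ext (by push_cast; exact h)
  have h2 : ((Ideal.Quotient.mk M) a - 1) ^ q ^ k = 0 := by
    rw [sub_pow_char_pow, one_pow, ← map_pow, hak, map_one, sub_self]
  have h3 : (Ideal.Quotient.mk M) (a - 1) = 0 := by
    rw [map_sub, map_one]
    exact pow_eq_zero_iff (pow_ne_zero k hM.pr.ne_zero) |>.mp h2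
  have h4 : a - 1 ∈ M := Ideal.Quotient.eq_zero_iff_mem.mp h3
  have h5 := InM.coe hM h4
  have h6 : ((a - 1 : integralClosure ℤ ℂ) : ℂ) = ω - 1 := by
    push_cast
    rfl
  rw [h6] at h5
  exact h5

/-- characters take congruent values at `w` and `s w` for a `q`-element `s` -/
theorem ZL2_con (hQCE : QCE_stmt) (hQRS : QRS_stmt) {q : ℕ} {M : Ideal (integralClosure ℤ ℂ)} (hM : Setup q M)
    {G : Type} [Group G] [Finite G] {K : Subgroup G} {η : G → ℂ} (hη : η ∈ IrrOn K) {s w : G} (hs : s ∈ K)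
    (hw : w ∈ K) (hqs : PEl q s) (hsw : s * w = w * s) : InM M (η (s * w) - η w) := by
  classical
  have hLK : Cz K s ≤ K := fun x hx => (mem_Cz.1 hx).1
  have hsL : s ∈ Cz K s := mem_Cz.2 ⟨hs, rfl⟩
  have hwL : w ∈ Cz K s := mem_Cz.2 ⟨hw, hsw⟩
  have hcen : Cen (Cz K s) s := fun l hl => ((mem_Cz.1 hl).2).symm
  obtain ⟨h1, h2⟩ := hQRS G K (Cz K s) hLK η hη
  rw [h2 (s * w) ((Cz K s).mul_mem hsL hwL), h2 w hwL]
  have hfin := IrrOn_fin (Cz K s)
  rw [finsum_mem_eq_finite_toFinset_sum _ hfin, finsum_mem_eq_finite_toFinset_sum _ hfin, ← Finset.sum_sub_distrib]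
  refine InM.sum hM _ fun ψ hψ => ?_
  have hψ1 : ψ ∈ IrrOn (Cz K s) := (Set.Finite.mem_toFinset hfin).1 hψ
  have h0 : ψ 1 ≠ 0 := IrrOn_ne hψ1
  obtain ⟨hc1, -, hc3⟩ := hQCE G (Cz K s) s hsL hcen ψ hψ1
  have hpow : ∀ k : ℕ, ψ (s ^ k) / ψ 1 = (ψ s / ψ 1) ^ k := by
    intro k
    induction k with
    | zero => rw [pow_zero, pow_zero, div_self h0]
    | succ k ih =>
      have h1 := hc1 (s ^ k)
      rw [pow_succ' (ψ s / ψ 1), ← ih, pow_succ' s, div_mul_div_comm, ← h1, mul_div_mul_right _ _ h0]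
  obtain ⟨k, hk⟩ := hqs
  have hroot : (ψ s / ψ 1) ^ q ^ k = 1 := by
    rw [← hpow, hk, div_self h0]
  have hin := ZL2_root hM hc3 k hroot
  obtain ⟨m, hm⟩ := h1 ψ hψ1
  have he : mt (Cz K s) η ψ * ψ (s * w) - mt (Cz K s) η ψ * ψ w =
      (m : ℂ) * ((ψ s / ψ 1 - 1) * ψ w) := by
    rw [hm]
    have h3 : ψ (s * w) = ψ s / ψ 1 * ψ w := by
      rw [div_mul_eq_mul_div, eq_div_iff h0]
      exact hc1 w
    rw [h3]
    ring
  rw [he]
  exact InM.mul_left hM (IntAt.natCast hM m) (InM.mul_right hM hin (IntAt.of_isIntegral hM (IrrOn_int hψ1 w)))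

/-- integral combinations of characters -/
def ZL2_R {G : Type} [Group G] [Finite G] (K : Subgroup G) (f : G → ℂ) : Prop :=
  ∃ c : (G → ℂ) → ℂ, (∀ η, IsIntegral ℤ (c η)) ∧ ∀ y ∈ K, f y = ∑ η ∈ (IrrOn_fin K).toFinset, c η * η y

theorem ZL2_zero {G : Type} [Group G] [Finite G] (K : Subgroup G) : ZL2_R K (fun _ => 0) :=
  ⟨fun _ => 0, fun _ => isIntegral_zero, fun y _ => by simp⟩

theorem ZL2_add {G : Type} [Group G] [Finite G] {K : Subgroup G} {f g : G → ℂ} (hf : ZL2_R K f) (hg : ZL2_R K g) :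
    ZL2_R K (fun y => f y + g y) := by
  obtain ⟨c, hc, h1⟩ := hf
  obtain ⟨d, hd, h2⟩ := hg
  refine ⟨fun η => c η + d η, fun η => (hc η).add (hd η), fun y hy => ?_⟩
  simp only
  rw [h1 y hy, h2 y hy, ← Finset.sum_add_distrib]
  exact Finset.sum_congr rfl fun η _ => by ring

theorem ZL2_smul {G : Type} [Group G] [Finite G] {K : Subgroup G} {f : G → ℂ} {a : ℂ} (ha : IsIntegral ℤ a)
    (hf : ZL2_R K f) : ZL2_R K (fun y => a * f y) := by
  obtain ⟨c, hc, h1⟩ := hf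
  refine ⟨fun η => a * c η, fun η => ha.mul (hc η), fun y hy => ?_⟩
  simp only
  rw [h1 y hy, Finset.mul_sum]
  exact Finset.sum_congr rfl fun η _ => by ring

theorem ZL2_sum {G : Type} [Group G] [Finite G] {K : Subgroup G} {ι : Type*} (s : Finset ι) {f : ι → G → ℂ}
    (hf : ∀ i ∈ s, ZL2_R K (f i)) : ZL2_R K (fun y => ∑ i ∈ s, f i y) := by
  classical
  induction s using Finset.induction_on with
  | empty =>
    simp only [Finset.sum_empty]
    exact ZL2_zero K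
  | insert a s ha ih =>
    have h1 := ZL2_add (hf a (Finset.mem_insert_self a s)) (ih fun i hi => hf i (Finset.mem_insert_of_mem hi))
    simp only [Finset.sum_insert ha]
    exact h1

theorem ZL2_congr {G : Type} [Group G] [Finite G] {K : Subgroup G} {f g : G → ℂ} (h : ∀ y ∈ K, f y = g y)
    (hf : ZL2_R K f) : ZL2_R K g := by
  obtain ⟨c, hc, h1⟩ := hf
  exact ⟨c, hc, fun y hy => by rw [← h y hy, h1 y hy]⟩

theorem ZL2_mul (hZRG : ZRG_stmt) {G : Type} [Group G] [Finite G] {K : Subgroup G} {f g : G → ℂ}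
    (hf : ZL2_R K f) (hg : ZL2_R K g) : ZL2_R K (fun y => f y * g y) := by
  classical
  obtain ⟨c, hc, h1⟩ := hf
  obtain ⟨d, hd, h2⟩ := hg
  have hprod : ∀ κ ∈ (IrrOn_fin K).toFinset, ∀ η ∈ (IrrOn_fin K).toFinset, ZL2_R K (fun y => κ y * η y) := by
    intro κ hκ η hη
    obtain ⟨m, hm⟩ := hZRG G K κ ((Set.Finite.mem_toFinset _).1 hκ) η ((Set.Finite.mem_toFinset _).1 hη)
    refine ⟨fun ψ => (m ψ : ℂ), fun ψ => ?_, fun y hy => ?_⟩
    · have := isIntegral_algebraMap (R := ℤ) (A := ℂ) (x := (m ψ : ℤ))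
      simpa using this
    · simp only
      rw [hm y hy, finsum_mem_eq_finite_toFinset_sum _ (IrrOn_fin K)]
  have h3 : ZL2_R K (fun y => ∑ κ ∈ (IrrOn_fin K).toFinset, ∑ η ∈ (IrrOn_fin K).toFinset,
      (c κ * d η) * (κ y * η y)) := by
    refine ZL2_sum _ fun κ hκ => ZL2_sum _ fun η hη => ?_
    exact ZL2_smul ((hc κ).mul (hd η)) (hprod κ hκ η hη)
  refine ZL2_congr (fun y hy => ?_) h3
  rw [h1 y hy, h2 y hy, Finset.sum_mul_sum]
  refine Finset.sum_congr rfl fun κ _ => Finset.sum_congr rfl fun η _ => by ring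

/-- a constant plus an integral combination of characters -/
def ZL2_T {G : Type} [Group G] [Finite G] (K : Subgroup G) (h : G → ℂ) (c : ℂ) : Prop :=
  IsIntegral ℤ c ∧ ∃ f, ZL2_R K f ∧ ∀ y ∈ K, h y = c + f y

theorem ZL2_Tone {G : Type} [Group G] [Finite G] (K : Subgroup G) : ZL2_T K (fun _ => 1) 1 :=
  ⟨isIntegral_one, fun _ => 0, ZL2_zero K, fun y _ => by ring⟩

theorem ZL2_Tmul (hZRG : ZRG_stmt) {G : Type} [Group G] [Finite G] {K : Subgroup G} {h g : G → ℂ} {c d : ℂ}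
    (hh : ZL2_T K h c) (hg : ZL2_T K g d) : ZL2_T K (fun y => h y * g y) (c * d) := by
  obtain ⟨hc, f, hf, h1⟩ := hh
  obtain ⟨hd, f', hf', h2⟩ := hg
  refine ⟨hc.mul hd, fun y => (c * f' y + d * f y) + f y * f' y,
    ZL2_add (ZL2_add (ZL2_smul hc hf') (ZL2_smul hd hf)) (ZL2_mul hZRG hf hf'), fun y hy => ?_⟩
  simp only
  rw [h1 y hy, h2 y hy]
  ring

theorem ZL2_Tprod (hZRG : ZRG_stmt) {G : Type} [Group G] [Finite G] {K : Subgroup G} {ι : Type*} (s : Finset ι)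
    {h : ι → G → ℂ} {c : ι → ℂ} (hh : ∀ i ∈ s, ZL2_T K (h i) (c i)) :
    ZL2_T K (fun y => ∏ i ∈ s, h i y) (∏ i ∈ s, c i) := by
  classical
  induction s using Finset.induction_on with
  | empty =>
    simp only [Finset.prod_empty]
    exact ZL2_Tone K
  | insert a s ha ih =>
    have h1 := ZL2_Tmul hZRG (hh a (Finset.mem_insert_self a s)) (ih fun i hi => hh i (Finset.mem_insert_of_mem hi))
    simp only [Finset.prod_insert ha]
    exact h1

theorem ZL2_nprod {q : ℕ} {M : Ideal (integralClosure ℤ ℂ)} (hM : Setup q M) {ι : Type*} (s : Finset ι) {f : ι → ℂ}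
    (hf : ∀ i ∈ s, IntAt M (f i) ∧ ¬ InM M (f i)) : ¬ InM M (∏ i ∈ s, f i) := by
  classical
  induction s using Finset.induction_on with
  | empty =>
    rw [Finset.prod_empty]
    exact InM.not_one hM
  | insert a s ha ih =>
    rw [Finset.prod_insert ha]
    intro h
    rcases InM.or hM (hf a (Finset.mem_insert_self a s)).1
      (IntAt.prod hM s fun i hi => (hf i (Finset.mem_insert_of_mem hi)).1) h with h1 | h1
    · exact (hf a (Finset.mem_insert_self a s)).2 h1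
    · exact ih (fun i hi => hf i (Finset.mem_insert_of_mem hi)) h1

/-- the functions `Φ` -/
theorem ZL2_phi (hZL1 : ZL1_stmt) (hQCE : QCE_stmt) (hQRS : QRS_stmt) {p q : ℕ} (hp : p.Prime) (hq : q.Prime)
    (hpq : q ≠ p) {M : Ideal (integralClosure ℤ ℂ)} (hM : Setup q M) {G : Type} [Group G] [Finite G]
    (K : Subgroup G) (x : G) (hx : x ∈ K) (hpx : ¬ p ∣ orderOf x) (hqx : ¬ q ∣ orderOf x) :
    ∃ Φ : G → ℂ, ZL2_R K Φ ∧ (∀ y, IsIntegral ℤ (Φ y)) ∧ (∀ y ∈ K, p ∣ orderOf y → Φ y = 0) ∧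
      (∀ y ∈ K, Φ y ≠ 0 → ¬ InM M (Φ y)) ∧
      ∀ s ∈ K, PEl q s → s * x = x * s → Φ (s * x) ≠ 0 := by
  classical
  obtain ⟨c, n, hn, hc, hcn, hsup⟩ := hZL1 q hq G K x hx hqx
  set S := (IrrOn_fin K).toFinset with hS
  have hSm : ∀ η ∈ S, η ∈ IrrOn K := fun η hη => (Set.Finite.mem_toFinset _).1 hη
  set Φ : G → ℂ := fun y => ∑ η ∈ S, c η * η y with hΦ
  have hΦf : ∀ y, ∑ᶠ η ∈ IrrOn K, c η * η y = Φ y := fun y => finsum_mem_eq_finite_toFinset_sum _ (IrrOn_fin K)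
  simp only [hΦf] at hcn hsup
  have hcon : ∀ s ∈ K, PEl q s → s * x = x * s → InM M (Φ (s * x) - (n : ℂ)) := by
    intro s hs hqs hsx
    rw [← hcn, hΦ]
    simp only
    rw [← Finset.sum_sub_distrib]
    refine InM.sum hM _ fun η hη => ?_
    rw [← mul_sub]
    exact InM.mul_left hM (IntAt.of_isIntegral hM (hc η)) (ZL2_con hQCE hQRS hM (hSm η hη) hs hx hqs hsx)
  have hnn : ¬ InM M (n : ℂ) := fun h => hn ((InM.natCast hM n).1 h)
  refine ⟨Φ, ⟨c, hc, fun y _ => rfl⟩, fun y => ?_, ?_, ?_, ?_⟩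
  · rw [hΦ]
    exact IsIntegral.sum _ fun η hη => (hc η).mul (IrrOn_int (hSm η hη) y)
  · intro y hy hpy
    by_contra hne
    obtain ⟨k, hk, s, hs, ⟨j, hj⟩, hsx, hkk⟩ := hsup y hy hne
    have h1 : orderOf (k * y * k⁻¹) = orderOf y := by
      have := (MulAut.conj k).orderOf_eq y
      simpa using this
    have h2 : Commute x s := hsx.symm
    have h3 : orderOf (x * s) ∣ orderOf x * orderOf s := h2.orderOf_mul_dvd_mul_orderOf
    rw [← hkk, h1] at h3
    rcases (hp.dvd_mul).1 (hpy.trans h3) with h4 | h4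
    · exact hpx h4
    · have h5 : orderOf s ∣ q ^ j := orderOf_dvd_of_pow_eq_one hj
      have h6 : p ∣ q := hp.dvd_of_dvd_pow (h4.trans h5)
      exact hpq ((Nat.prime_dvd_prime_iff_eq hp hq).1 h6).symm
  · intro y hy hne hin
    obtain ⟨k, hk, s, hs, hqs, hsx, hkk⟩ := hsup y hy hne
    have h1 : Φ y = Φ (s * x) := by
      rw [hsx, ← hkk, hΦ]
      simp only
      exact Finset.sum_congr rfl fun η hη => by rw [IrrOn_conj (hSm η hη) hk]
    have h2 := hcon s hs hqs hsx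
    rw [← h1] at h2
    have h3 := hin.sub hM h2
    rw [sub_sub_cancel] at h3
    exact hnn h3
  · intro s hs hqs hsx h0
    have h2 := hcon s hs hqs hsx
    rw [h0, zero_sub] at h2
    have h3 := h2.neg
    rw [neg_neg] at h3
    exact hnn h3

theorem ZL2_fs {G : Type} [Fintype G] (s : Set G) (F : G → ℂ) [DecidablePred (· ∈ s)] :
    ∑ᶠ g ∈ s, F g = ∑ g : G, if g ∈ s then F g else 0 := by
  rw [finsum_eq_sum_of_fintype]
  refine Finset.sum_congr rfl fun g _ => ?_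
  exact finsum_eq_if

theorem ZL2 (hZL1 : ZL1_stmt) (hZRG : ZRG_stmt) (hTPR : Pool.Agent.FI.TPR_stmt) (hQCE : QCE_stmt) (hQRS : QRS_stmt)
    (hB2 : B2_stmt) (hSTC : STC_stmt) : ZL2_stmt := by
  classical
  intro p q hp hq hpq M hM G _ _ K η hη η' hη'
  have := Fintype.ofFinite G
  set X : Finset G := Finset.univ.filter fun x => x ∈ K ∧ ¬ p ∣ orderOf x ∧ ¬ q ∣ orderOf x with hX
  have hXm : ∀ x ∈ X, x ∈ K ∧ ¬ p ∣ orderOf x ∧ ¬ q ∣ orderOf x := fun x hx => (Finset.mem_filter.1 hx).2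
  have hex : ∀ x ∈ X, ∃ Φ : G → ℂ, ZL2_R K Φ ∧ (∀ y, IsIntegral ℤ (Φ y)) ∧ (∀ y ∈ K, p ∣ orderOf y → Φ y = 0) ∧
      (∀ y ∈ K, Φ y ≠ 0 → ¬ InM M (Φ y)) ∧
      ∀ s ∈ K, PEl q s → s * x = x * s → Φ (s * x) ≠ 0 := fun x hx =>
    ZL2_phi hZL1 hQCE hQRS hp hq hpq hM K x (hXm x hx).1 (hXm x hx).2.1 (hXm x hx).2.2
  choose! Φ hΦR hΦi hΦ0 hΦn hΦx using hex
  set V : G → Finset ℂ := fun x => ((Finset.univ.filter fun y => y ∈ K).image (Φ x)).erase 0 with hV
  have hVm : ∀ x ∈ X, ∀ α ∈ V x, IsIntegral ℤ α ∧ ¬ InM M α := by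
    intro x hx α hα
    rw [hV] at hα
    simp only [Finset.mem_erase, Finset.mem_image, Finset.mem_filter, Finset.mem_univ, true_and] at hα
    obtain ⟨h0, y, hy, rfl⟩ := hα
    exact ⟨hΦi x hx y, hΦn x hx y hy h0⟩
  set H : G → ℂ := fun y => ∏ x ∈ X, ∏ α ∈ V x, (Φ x y - α) with hH
  set a₀ : ℂ := ∏ x ∈ X, ∏ α ∈ V x, (-α) with ha₀
  have hT : ZL2_T K H a₀ := by
    refine ZL2_Tprod hZRG X fun x hx => ?_
    refine ZL2_Tprod hZRG (V x) fun α hα => ?_
    exact ⟨(hVm x hx α hα).1.neg, Φ x, hΦR x hx, fun y _ => by ring⟩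
  obtain ⟨hai, f, hf, hHf⟩ := hT
  have han : ¬ InM M a₀ := by
    have h1 : ∀ x ∈ X, IntAt M (∏ α ∈ V x, (-α)) ∧ ¬ InM M (∏ α ∈ V x, (-α)) := by
      intro x hx
      have h2 : ∀ α ∈ V x, IntAt M (-α) ∧ ¬ InM M (-α) := by
        intro α hα
        obtain ⟨h3, h4⟩ := hVm x hx α hα
        refine ⟨(IntAt.of_isIntegral hM h3).neg, fun h5 => h4 ?_⟩
        have := h5.neg
        rwa [neg_neg] at this
      exact ⟨IntAt.prod hM _ fun α hα => (h2 α hα).1, ZL2_nprod hM _ h2⟩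
    exact ZL2_nprod hM _ h1
  have hval : ∀ y ∈ K, a₀ - H y = if p ∣ orderOf y then 0 else a₀ := by
    intro y hy
    by_cases hpy : p ∣ orderOf y
    · rw [if_pos hpy, sub_eq_zero, ha₀, hH]
      refine Finset.prod_congr rfl fun x hx => Finset.prod_congr rfl fun α _ => ?_
      rw [hΦ0 x hx y hy hpy, zero_sub]
    · rw [if_neg hpy]
      obtain ⟨s, x, hs, hx, hqs, hqx, hox, hsx, hcm⟩ := ZL2_dec hq y
      have hzK : Subgroup.zpowers y ≤ K := by
        rw [Subgroup.zpowers_le]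
        exact hy
      have hxX : x ∈ X := by
        rw [hX, Finset.mem_filter]
        exact ⟨Finset.mem_univ x, hzK hx, fun h => hpy (h.trans hox), hqx⟩
      have h1 : Φ x y ≠ 0 := by
        have := hΦx x hxX s (hzK hs) hqs hcm
        rwa [hsx] at this
      have h2 : Φ x y ∈ V x := by
        rw [hV]
        simp only [Finset.mem_erase, Finset.mem_image, Finset.mem_filter, Finset.mem_univ, true_and]
        exact ⟨h1, y, hy, rfl⟩
      have h3 : H y = 0 := by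
        rw [hH]
        refine Finset.prod_eq_zero hxX ?_
        exact Finset.prod_eq_zero h2 (sub_self _)
      rw [h3, sub_zero]
  have hηR : ZL2_R K η := by
    refine ⟨fun ψ => if ψ = η then 1 else 0, fun ψ => ?_, fun y _ => ?_⟩
    · simp only
      split_ifs
      · exact isIntegral_one
      · exact isIntegral_zero
    · have hm : η ∈ (IrrOn_fin K).toFinset := (Set.Finite.mem_toFinset _).2 hη
      simp only [ite_mul, one_mul, zero_mul]
      rw [Finset.sum_ite_eq' _ η, if_pos hm]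
  have hFR : ZL2_R K (fun y => (-1 * f y) * η y) := ZL2_mul hZRG (ZL2_smul (isIntegral_one.neg) hf) hηR
  obtain ⟨d, hd, hF⟩ := hFR
  refine ⟨a₀, hai, han, ?_⟩
  have hKc : (Nat.card K : ℂ) ≠ 0 := by
    have : 0 < Nat.card K := Nat.card_pos
    exact_mod_cast this.ne'
  suffices h : a₀ * EE p K η η' = d η' by
    rw [h]
    exact hd η'
  unfold EE
  rw [← mul_div_assoc, div_eq_iff hKc, ZL2_fs, Finset.mul_sum]
  have hB := (hB2 G K).2
  have e1 : ∀ v : G, a₀ * (if v ∈ {v : G | v ∈ K ∧ PReg p v} then η v * η' v⁻¹ else 0) =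
      ∑ ψ ∈ (IrrOn_fin K).toFinset, d ψ * (ψ v * η' v⁻¹) := by
    intro v
    by_cases hv : v ∈ K
    · have h1 := hF v hv
      have h2 : -1 * f v = if p ∣ orderOf v then 0 else a₀ := by
        rw [← hval v hv, hHf v hv]
        ring
      simp only at h1
      rw [h2] at h1
      have h3 : ∑ ψ ∈ (IrrOn_fin K).toFinset, d ψ * (ψ v * η' v⁻¹) =
          (∑ ψ ∈ (IrrOn_fin K).toFinset, d ψ * ψ v) * η' v⁻¹ := by
        rw [Finset.sum_mul]
        exact Finset.sum_congr rfl fun ψ _ => by ring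
      rw [h3, ← h1]
      by_cases hpv : p ∣ orderOf v
      · rw [if_pos hpv, if_neg (fun h : v ∈ {v : G | v ∈ K ∧ PReg p v} => h.2 hpv)]
        ring
      · rw [if_neg hpv, if_pos (show v ∈ {v : G | v ∈ K ∧ PReg p v} from ⟨hv, hpv⟩)]
        ring
    · rw [if_neg (fun h : v ∈ {v : G | v ∈ K ∧ PReg p v} => hv h.1), mul_zero]
      symm
      refine Finset.sum_eq_zero fun ψ hψ => ?_
      rw [IrrOn_zero ((Set.Finite.mem_toFinset _).1 hψ) hv]
      ring
  rw [Finset.sum_congr rfl fun v _ => e1 v, Finset.sum_comm]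
  have e2 : ∀ ψ ∈ (IrrOn_fin K).toFinset, ∑ v : G, d ψ * (ψ v * η' v⁻¹) =
      if ψ = η' then d η' * (Nat.card K : ℂ) else 0 := by
    intro ψ hψ
    have h1 := (hB ψ ((Set.Finite.mem_toFinset _).1 hψ)).2.2.2.2 η' hη'
    rw [finsum_eq_sum_of_fintype] at h1
    rw [← Finset.mul_sum, h1]
    by_cases h : ψ = η'
    · rw [if_pos h, if_pos h, h]
    · rw [if_neg h, if_neg h, mul_zero]
  rw [Finset.sum_congr rfl e2, Finset.sum_ite_eq' _ η', if_pos ((Set.Finite.mem_toFinset _).2 hη')]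

end Pool.Agent.LE
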